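import Pool.Agent.N869.GK.StmM
import Pool.Agent.N314.GK.PAIR

/-!
# GK/M-PAIRM (helper263 for helper869): the sets that are not stable contribute little, several curves

Port of `Pool.Agent.N314.GK.PAIR` (helper314); the data depend on the copy.
-/

set_option autoImplicit false
set_option linter.unusedVariables false
set_option linter.unusedSectionVars false

open scoped Classical

namespace Pool.Agent.N263.GK.PAIRM

open Finset
open Pool.Agent.N869.GK
open Pool.Agent.N314.GK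

section forms

variable {ι C : Type} [Fintype ι]

theorem actM_add (κ : ι → C) (A : C → Matrix (Fin 2) (Fin 2) (ZMod 2)) (θ θ' : Dc ι) :
    M.actM κ A (θ + θ') = M.actM κ A θ + M.actM κ A θ' := by
  funext x
  simp only [M.actM, Pi.add_apply, Prod.fst_add, Prod.snd_add, Matrix.mulVec_add, Prod.mk_add_mk]

theorem add_actM (κ : ι → C) (A A' : C → Matrix (Fin 2) (Fin 2) (ZMod 2)) (θ : Dc ι) :
    M.actM κ (A + A') θ = M.actM κ A θ + M.actM κ A' θ := by
  funext x
  simp only [M.actM, Pi.add_apply, Matrix.add_mulVec, Prod.mk_add_mk]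

theorem mul_actM (κ : ι → C) (A A' : C → Matrix (Fin 2) (Fin 2) (ZMod 2)) (θ : Dc ι) :
    M.actM κ (A * A') θ = M.actM κ A (M.actM κ A' θ) := by
  funext x
  simp only [M.actM, Matrix.mulVec_mulVec, Pi.mul_apply]

theorem one_actM (κ : ι → C) (θ : Dc ι) : M.actM κ (1 : C → Matrix (Fin 2) (Fin 2) (ZMod 2)) θ = θ := by
  funext x
  simp only [M.actM, Matrix.one_mulVec, Pi.one_apply]

end forms

/-- if all the matrices of the labels preserve the group of the differences the set is stable -/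
theorem stb_ofM (hG : M.S_GENM) {r : ℕ} {ι C : Type} [Fintype ι] [Fintype C] {κ : ι → C}
    {Z : Finset (Dc ι)} (hZ : Lag Z) (D₀ : Par r) (D : C → Par r) (ok : M.OkM D₀ D)
    (h : ∀ π, ∀ θ ∈ Lam Z, M.actM κ (fun k => M.Mt (D k) π) θ ∈ Lam Z) : M.StbM κ Z := by
  have hg := hG r C D₀ D ok {A | ∀ θ ∈ Lam Z, M.actM κ A θ ∈ Lam Z}
    (fun θ hθ => by rw [one_actM]; exact hθ)
    (fun x hx y hy θ hθ => by rw [add_actM]; exact (Lam Z).add_mem (hx θ hθ) (hy θ hθ))
    (fun x hx y hy θ hθ => by rw [mul_actM]; exact hx _ (hy θ hθ))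
    (fun π => h π)
  intro A ζ hζ ζ' hζ'
  exact hg A _ (hZ.add_mem hζ hζ') ζ hζ

section exch

variable {r : ℕ} {R ι : Type} [Fintype R] [Fintype ι]

/-- the contribution of one vertex -/
def AnM (D : ι → Par r) (s : ι → Fin 2 → Gr r) (π : Gr r) (ζ : Dc ι) : ZMod 2 :=
  ∑ x, (om (ζ x).2 (fun c => dot (s x c) π) + om (ζ x).2 (Dm (D x) π (ζ x).1))

theorem Ex_eqM (D : ι → Par r) (lab : R → Gr r) (N : R → R → ZMod 2) (s : ι → Fin 2 → Gr r)
    (ζ : R → Dc ι) : M.Ex D lab N (fun _ => univ) s ζ =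
      ∑ i, AnM D s (lab i) (ζ i) + ∑ i, ∑ j, N i j * Phi (ζ i) (ζ j) := by
  unfold M.Ex
  rw [sum_comm, ← sum_add_distrib]
  refine sum_congr rfl fun i _ => ?_
  unfold AnM Phi
  simp only [mul_sum]
  rw [sum_comm (s := univ (α := R)), ← sum_add_distrib]
  refine sum_congr rfl fun x _ => ?_
  exact om_row (D x) lab N (s x) (fun j => (ζ j x).1) i (ζ i x).2

/-- the form that describes the exchange -/
theorem bf_actM {C : Type} (κ : ι → C) (D₀ : Par r) (D : C → Par r) (hem : ∀ k, (D k).em = D₀.em)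
    (π : Gr r) (η θ : Dc ι) : bf η (M.actM κ (fun k => M.Mt (D k) π) θ) =
    ∑ x, (om (θ x).2 (Dm (D (κ x)) π (η x).1) + om (η x).2 (Dm (D (κ x)) π (θ x).1)) +
      dot D₀.em π * ∑ x, om (η x).2 (θ x).1 := by
  unfold bf
  rw [mul_sum, ← sum_add_distrib]
  refine sum_congr rfl fun x _ => ?_
  rw [← hem (κ x)]
  simp only [M.actM, M.Mt, om, Dm, Matrix.mulVec, dotProduct, Fin.sum_univ_two, Matrix.of_apply,
    Matrix.cons_val_zero, Matrix.cons_val_one, Matrix.cons_val', dot_add, Matrix.cons_val_fin_one]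
  linear_combination (-((η x).2 1 * (θ x).1 0 * dot (D (κ x)).em π)) * two_eq

theorem AnM_add (D : ι → Par r) (s : ι → Fin 2 → Gr r) (π : Gr r) (ζ ζ' η : Dc ι) :
    AnM D s π (ζ + η) + AnM D s π (ζ' + η) = AnM D s π ζ + AnM D s π ζ' +
      ∑ x, (om ((ζ + ζ') x).2 (Dm (D x) π (η x).1) + om (η x).2 (Dm (D x) π ((ζ + ζ') x).1)) := by
  unfold AnM
  rw [← sum_add_distrib, ← sum_add_distrib, ← sum_add_distrib]
  refine sum_congr rfl fun x _ => ?_
  simp only [Pi.add_apply, Prod.fst_add, Prod.snd_add, om_add_left, om_add_right, Dm_add]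
  linear_combination (om (η x).2 (fun c => dot (s x c) π) + om (η x).2 (Dm (D x) π (η x).1)) * two_eq

theorem Ex_shM {C : Type} (κ : ι → C) {Z : Finset (Dc ι)} (hZ : Lag Z) (D₀ : Par r) (D : C → Par r)
    (hem : ∀ k, (D k).em = D₀.em) {lab : R → Gr r} {N : R → R → ZMod 2}
    (hrec : ∀ i j, i ≠ j → N i j + N j i = dot D₀.em (lab i) * dot D₀.em (lab j)) {i0 j0 : R}
    (hij : i0 ≠ j0) (hl : lab i0 = lab j0) (s : ι → Fin 2 → Gr r) (ζ : R → Dc ι)
    (hζ : ∀ k, ζ k ∈ Z) {η : Dc ι} (hη : η ∈ Lam Z) :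
    M.Ex (fun x => D (κ x)) lab N (fun _ => univ) s (sh ζ i0 j0 η) =
      M.Ex (fun x => D (κ x)) lab N (fun _ => univ) s ζ +
        bf η (M.actM κ (fun k => M.Mt (D k) (lab i0)) (ζ i0 + ζ j0)) := by
  rw [Ex_eqM, Ex_eqM, sum_sh hZ (t := fun i => dot D₀.em (lab i)) hrec hij (by rw [hl]) ζ hζ hη,
    bf_actM κ D₀ D hem]
  have e1 : ∑ i, AnM (fun x => D (κ x)) s (lab i) (sh ζ i0 j0 η i) =
      ∑ i, AnM (fun x => D (κ x)) s (lab i) (ζ i) +
      ∑ x, (om ((ζ i0 + ζ j0) x).2 (Dm (D (κ x)) (lab i0) (η x).1) +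
        om (η x).2 (Dm (D (κ x)) (lab i0) ((ζ i0 + ζ j0) x).1)) := by
    rw [split3 hij, split3 hij, sh_left, sh_right, ← hl]
    have e2 := AnM_add (fun x => D (κ x)) s (lab i0) (ζ i0) (ζ j0) η
    have e3 : ∑ k ∈ (univ.erase i0).erase j0, AnM (fun x => D (κ x)) s (lab k) (sh ζ i0 j0 η k) =
        ∑ k ∈ (univ.erase i0).erase j0, AnM (fun x => D (κ x)) s (lab k) (ζ k) := by
      refine sum_congr rfl fun k hk => ?_
      rw [mem_erase, mem_erase] at hk
      rw [sh_of_ne ζ η hk.2.1 hk.1]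
    rw [e3, ← add_assoc, e2]
    ring
  rw [e1]
  ring

theorem XW_shM (D : ι → Par r) {lab : R → Gr r} {i0 j0 : R} (hij : i0 ≠ j0) (hl : lab i0 = lab j0)
    (s : ι → Fin 2 → Gr r) (ζ : R → Dc ι) (η : Dc ι) :
    M.XW D lab (fun _ => univ) s (sh ζ i0 j0 η) ↔ M.XW D lab (fun _ => univ) s ζ := by
  unfold M.XW
  have h : ∀ x, Xl lab univ (s x) (fun i => (sh ζ i0 j0 η i x).1) =
      Xl lab univ (s x) (fun i => (ζ i x).1) := by
    intro x
    unfold Xl
    refine Prod.ext rfl ?_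
    funext c
    show ∑ i, (sh ζ i0 j0 η i x).1 c • lab i = ∑ i, (ζ i x).1 c • lab i
    rw [split3 hij, split3 hij, sh_left, sh_right, ← hl]
    have e3 : ∑ k ∈ (univ.erase i0).erase j0, (sh ζ i0 j0 η k x).1 c • lab k =
        ∑ k ∈ (univ.erase i0).erase j0, (ζ k x).1 c • lab k := by
      refine sum_congr rfl fun k hk => ?_
      rw [mem_erase, mem_erase] at hk
      rw [sh_of_ne ζ η hk.2.1 hk.1]
    rw [e3, ← add_assoc, ← add_assoc, ← add_smul, ← add_smul]
    congr 2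
    simp only [Pi.add_apply, Prod.fst_add]
    linear_combination (η x).1 c * two_eq
  simp only [h]

end exch

section count

variable {r : ℕ} {R ι C : Type} [Fintype R] [Fintype ι]

/-- the value of the form at the pair `p` -/
def ggM (κ : ι → C) (A : C → Matrix (Fin 2) (Fin 2) (ZMod 2)) (η : Dc ι) {L : ℕ} (i j : Fin L → R)
    (ζ : R → Dc ι) (p : Fin L) : ZMod 2 := bf η (M.actM κ A (ζ (i p) + ζ (j p)))

theorem ggM_sh (κ : ι → C) (A : C → Matrix (Fin 2) (Fin 2) (ZMod 2)) (η : Dc ι) {L : ℕ}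
    {i j : Fin L → R}
    (hi : Function.Injective i) (hj : Function.Injective j) (hij : ∀ p q, i p ≠ j q)
    (ζ : R → Dc ι) (p q : Fin L) : ggM κ A η i j (sh ζ (i p) (j p) η) q = ggM κ A η i j ζ q := by
  unfold ggM
  by_cases h : q = p
  · subst h
    rw [sh_left, sh_right]
    congr 2
    have e : ζ (i q) + η + (ζ (j q) + η) = ζ (i q) + ζ (j q) + η + η := by abel
    rw [e, dc_cancel']
  · rw [sh_of_ne ζ η (fun h' => h (hi h')) (hij q p),
      sh_of_ne ζ η (fun h' => hij p q h'.symm) (fun h' => h (hj h'))]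

theorem cancelM (κ : ι → C) {Z : Finset (Dc ι)} (hZ : Lag Z) (D₀ : Par r) (D : C → Par r)
    (hem : ∀ k, (D k).em = D₀.em) {lab : R → Gr r} {N : R → R → ZMod 2}
    (hrec : ∀ i j, i ≠ j → N i j + N j i = dot D₀.em (lab i) * dot D₀.em (lab j)) {L : ℕ}
    {i j : Fin L → R} (hi : Function.Injective i) (hj : Function.Injective j)
    (hij : ∀ p q, i p ≠ j q) {π : Gr r} (hli : ∀ p, lab (i p) = π) (hlj : ∀ p, lab (j p) = π)
    {η : Dc ι} (hη : η ∈ Lam Z) (s : ι → Fin 2 → Gr r) :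
    ∑ ζ ∈ ((Fintype.piFinset fun _ : R => Z).filter (fun ζ : R → Dc ι =>
      M.XW (fun x => D (κ x)) lab (fun _ => univ) s ζ)).filter
        (fun ζ => ∃ p, ggM κ (fun k => M.Mt (D k) π) η i j ζ p ≠ 0),
        sn (M.Ex (fun x => D (κ x)) lab N (fun _ => univ) s ζ) = 0 := by
  have hmem : ∀ ζ ∈ ((Fintype.piFinset fun _ : R => Z).filter (fun ζ : R → Dc ι =>
      M.XW (fun x => D (κ x)) lab (fun _ => univ) s ζ)).filter
        (fun ζ => ∃ p, ggM κ (fun k => M.Mt (D k) π) η i j ζ p ≠ 0),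
      (∀ k, ζ k ∈ Z) ∧ M.XW (fun x => D (κ x)) lab (fun _ => univ) s ζ ∧
        ∃ p, ggM κ (fun k => M.Mt (D k) π) η i j ζ p ≠ 0 := by
    intro ζ hζ
    rw [mem_filter, mem_filter, Fintype.mem_piFinset] at hζ
    exact ⟨hζ.1.1, hζ.1.2, hζ.2⟩
  have hgg : ∀ (ζ : R → Dc ι) (p : Fin L),
      (fun q => ggM κ (fun k => M.Mt (D k) π) η i j (sh ζ (i p) (j p) η) q ≠ 0) =
        fun q => ggM κ (fun k => M.Mt (D k) π) η i j ζ q ≠ 0 := by
    intro ζ p
    funext q
    rw [ggM_sh κ _ _ hi hj hij]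
  refine sum_involution
    (fun ζ hζ => sh ζ (i (pk _ (hmem ζ hζ).2.2)) (j (pk _ (hmem ζ hζ).2.2)) η) ?_ ?_ ?_ ?_
  · intro ζ hζ
    obtain ⟨h1, h2, h3⟩ := hmem ζ hζ
    have h4 := pk_spec _ h3
    set p := pk _ h3 with hp
    have h5 := Ex_shM κ hZ D₀ D hem hrec (hij p p) ((hli p).trans (hlj p).symm) s ζ h1 hη
    have h6 : bf η (M.actM κ (fun k => M.Mt (D k) (lab (i p))) (ζ (i p) + ζ (j p))) = 1 := by
      rw [hli p]
      exact (z2 _).resolve_left h4
    rw [h6] at h5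
    show sn (M.Ex (fun x => D (κ x)) lab N (fun _ => univ) s ζ) +
      sn (M.Ex (fun x => D (κ x)) lab N (fun _ => univ) s (sh ζ (i p) (j p) η)) = 0
    rw [h5, sn_add_one]
    ring
  · intro ζ hζ _ heq
    obtain ⟨h1, h2, h3⟩ := hmem ζ hζ
    have h4 := pk_spec _ h3
    set p := pk _ h3 with hp
    have heq' : sh ζ (i p) (j p) η = ζ := heq
    have h5 := congrFun heq' (i p)
    rw [sh_left] at h5
    have h6 : η = 0 := by
      have := dc_cancel (ζ (i p)) η
      rw [h5, dc_add_self] at this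
      exact this.symm
    apply h4
    show ggM κ (fun k => M.Mt (D k) π) η i j ζ p = 0
    unfold ggM
    rw [h6, bf_comm, bf_zero_right]
  · intro ζ hζ
    obtain ⟨h1, h2, h3⟩ := hmem ζ hζ
    set p := pk _ h3 with hp
    show sh ζ (i p) (j p) η ∈ _
    rw [mem_filter, mem_filter, Fintype.mem_piFinset]
    refine ⟨⟨?_, ?_⟩, ?_⟩
    · intro k
      unfold sh
      split_ifs
      · exact hη _ (h1 k)
      · exact h1 k
    · exact (XW_shM _ (hij p p) ((hli p).trans (hlj p).symm) s ζ η).2 h2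
    · obtain ⟨q, hq⟩ := h3
      exact ⟨q, by rw [ggM_sh κ _ _ hi hj hij]; exact hq⟩
  · intro ζ hζ
    obtain ⟨h1, h2, h3⟩ := hmem ζ hζ
    have h' : ∃ q, ggM κ (fun k => M.Mt (D k) π) η i j
        (sh ζ (i (pk _ h3)) (j (pk _ h3)) η) q ≠ 0 := by
      obtain ⟨q, hq⟩ := h3
      exact ⟨q, by rw [ggM_sh κ _ _ hi hj hij]; exact hq⟩
    have e := pk_congr (hgg ζ (pk _ h3)) h' h3
    have e' : sh (sh ζ (i (pk _ h3)) (j (pk _ h3)) η) (i (pk _ h')) (j (pk _ h')) η = ζ := by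
      rw [e, sh_sh]
    exact e'

theorem countM (κ : ι → C) {Z : Finset (Dc ι)} (hZ : Lag Z)
    (A : C → Matrix (Fin 2) (Fin 2) (ZMod 2)) {L : ℕ}
    {i j : Fin L → R} (hi : Function.Injective i) (hj : Function.Injective j)
    (hij : ∀ p q, i p ≠ j q) {η θ : Dc ι} (hη : η ∈ Lam Z) (hθ : θ ∈ Lam Z)
    (h : bf η (M.actM κ A θ) ≠ 0) :
    2 ^ L * ((Fintype.piFinset fun _ : R => Z).filter
      (fun ζ => ∀ p, ggM κ A η i j ζ p = 0)).card ≤ (Fintype.piFinset fun _ : R => Z).card := by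
  set G := (Fintype.piFinset fun _ : R => Z).filter (fun ζ => ∀ p, ggM κ A η i j ζ p = 0) with hG
  have hc : ((univ : Finset (Finset (Fin L))) ×ˢ G).card = 2 ^ L * G.card := by
    rw [card_product, card_univ, Fintype.card_finset, Fintype.card_fin]
  rw [← hc]
  set F : Finset (Fin L) × (R → Dc ι) → R → Dc ι :=
    fun x k => if ∃ p ∈ x.1, j p = k then x.2 k + θ else x.2 k with hF
  have hFi : ∀ x p, F x (i p) = x.2 (i p) := by
    intro x p
    simp only [hF]
    rw [if_neg]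
    rintro ⟨q, -, hq⟩
    exact hij p q hq.symm
  have hFj : ∀ x p, F x (j p) = if p ∈ x.1 then x.2 (j p) + θ else x.2 (j p) := by
    intro x p
    simp only [hF]
    by_cases hp : p ∈ x.1
    · rw [if_pos ⟨p, hp, rfl⟩, if_pos hp]
    · rw [if_neg hp, if_neg]
      rintro ⟨q, hq, hqp⟩
      exact hp (hj hqp ▸ hq)
  have hFg : ∀ x : Finset (Fin L) × (R → Dc ι), (∀ p, ggM κ A η i j x.2 p = 0) →
      ∀ p, p ∈ x.1 ↔ ggM κ A η i j (F x) p ≠ 0 := by
    intro x hx p
    unfold ggM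
    rw [hFi, hFj]
    by_cases hp : p ∈ x.1
    · rw [if_pos hp, ← add_assoc, actM_add, bf_add_right]
      have h1 : bf η (M.actM κ A (x.2 (i p) + x.2 (j p))) = 0 := hx p
      rw [h1, zero_add]
      exact ⟨fun _ => h, fun _ => hp⟩
    · rw [if_neg hp]
      have h1 : bf η (M.actM κ A (x.2 (i p) + x.2 (j p))) = 0 := hx p
      rw [h1]
      exact ⟨fun h' => absurd h' hp, fun h' => absurd rfl h'⟩
  refine card_le_card_of_injOn F ?_ ?_
  · rintro x hx
    rw [mem_coe, mem_product, hG, mem_filter, Fintype.mem_piFinset] at hx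
    rw [mem_coe, Fintype.mem_piFinset]
    intro k
    simp only [hF]
    split_ifs
    · exact hθ _ (hx.2.1 k)
    · exact hx.2.1 k
  · rintro x hx y hy hxy
    rw [mem_coe, mem_product, hG, mem_filter, Fintype.mem_piFinset] at hx hy
    have h1 : x.1 = y.1 := by
      ext p
      rw [hFg x hx.2.2 p, hFg y hy.2.2 p, hxy]
    refine Prod.ext h1 ?_
    funext k
    have h2 := congrFun hxy k
    simp only [hF, h1] at h2
    split_ifs at h2
    · exact add_right_cancel h2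
    · exact h2

end count

/-- **GK/M-PAIRM.** -/
theorem t_PAIRM : Pool.Agent.N869.GK.M.S_PAIRM := by
  intro hU hG r C _ D₀ D ok R ι _ _ κ lab N L hyp hL Z hMS hst
  have hZ := lag_of_MS hU hMS
  -- a label whose matrices do not preserve the group of the differences
  have h1 : ∃ π, ∃ θ ∈ Lam Z, M.actM κ (fun k => M.Mt (D k) π) θ ∉ Lam Z := by
    by_contra hcon
    push Not at hcon
    exact hst (stb_ofM hG hZ D₀ D ok hcon)
  obtain ⟨π, θ, hθ, hnot⟩ := h1
  have h2 : ∃ η ∈ Lam Z, bf η (M.actM κ (fun k => M.Mt (D k) π) θ) ≠ 0 := by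
    by_contra hcon
    push Not at hcon
    exact hnot (hZ.mem_of hcon)
  obtain ⟨η, hη, hne⟩ := h2
  obtain ⟨i, j, hi, hj, hij, hli, hlj⟩ := exists_pairs (hL π)
  have hrec : ∀ i j, i ≠ j → N i j + N j i = dot D₀.em (lab i) * dot D₀.em (lab j) :=
    fun i j h => hyp.recip i (mem_univ i) j (mem_univ j) h
  set G := (Fintype.piFinset fun _ : R => Z).filter
    (fun ζ => ∀ p, ggM κ (fun k => M.Mt (D k) π) η i j ζ p = 0) with hG'
  have hs : ∀ s : ι → Fin 2 → Gr r,
      |∑ ζ ∈ (Fintype.piFinset fun _ : R => Z).filter (fun ζ : R → Dc ι =>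
        M.XW (fun x => D (κ x)) lab (fun _ => univ) s ζ),
          sn (M.Ex (fun x => D (κ x)) lab N (fun _ => univ) s ζ)| ≤ G.card := by
    intro s
    rw [← sum_filter_add_sum_filter_not _ (fun ζ => ∃ p, ggM κ (fun k => M.Mt (D k) π) η i j ζ p ≠ 0),
      cancelM κ hZ D₀ D ok.em hrec hi hj hij hli hlj hη s, zero_add]
    refine (abs_sum_le_sum_abs _ _).trans ?_
    simp only [abs_sn, sum_const, nsmul_eq_mul, mul_one]
    rw [Nat.cast_le]
    refine card_le_card ?_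
    intro ζ hζ
    rw [mem_filter, mem_filter] at hζ
    rw [hG', mem_filter]
    refine ⟨hζ.1.1, fun p => ?_⟩
    by_contra hp
    exact hζ.2 ⟨p, hp⟩
  have hcount := countM κ hZ (fun k => M.Mt (D k) π) hi hj hij hη hθ hne
  rw [← hG', Fintype.card_piFinset, prod_const, card_univ, hMS.2.1] at hcount
  have hcount' : (2 : ℝ) ^ L * G.card ≤ 4 ^ (Fintype.card ι * Fintype.card R) := by
    have h3 : 2 ^ L * G.card ≤ 4 ^ (Fintype.card ι * Fintype.card R) := by
      rw [pow_mul]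
      simpa using hcount
    exact_mod_cast h3
  unfold Pool.Agent.N869.GK.M.One
  refine (abs_sum_le_sum_abs _ _).trans ?_
  refine (sum_le_sum fun s _ => hs s).trans ?_
  rw [sum_const, card_univ, nsmul_eq_mul]
  have hcs : ((Fintype.card (ι → Fin 2 → Gr r) : ℕ) : ℝ) = 4 ^ (r * Fintype.card ι) := by
    simp only [Fintype.card_pi, ZMod.card, prod_const, card_univ, Fintype.card_fin]
    push_cast
    rw [← pow_mul, ← pow_mul]
    have : (4 : ℝ) = 2 ^ 2 := by norm_num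
    rw [this, ← pow_mul]
    congr 1
    ring
  rw [hcs, mul_assoc]
  apply mul_le_mul_of_nonneg_left _ (by positivity)
  rw [one_div, inv_pow, inv_mul_eq_div, le_div_iff₀ (by positivity), mul_comm]
  exact hcount'

end Pool.Agent.N263.GK.PAIRM
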