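import Pool.Agent.N869.GK.D.Stm

/-!
# Project GK (helper869), D-RK: the 2-Selmer group of the curve (helper263)
-/

set_option autoImplicit false

open scoped Classical

namespace Pool.Agent.N263.GK

open Finset
open Pool.Agent.TH841.SH (LocC SelG)
open Pool.Agent.N869.GK
open Pool.Agent.N869.GK.D

theorem sqf_eq {a b : ℤ} (ha : Squarefree a) (hb : Squarefree b) (h : IsSquare (a * b)) : a = b := by
  obtain ⟨c, hc⟩ := h
  have ha0 : a ≠ 0 := ha.ne_zero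
  have h1 : a ∣ c := by
    rw [← ha.dvd_pow_iff_dvd (n := 2) (by norm_num), pow_two, ← hc]
    exact dvd_mul_right a b
  obtain ⟨d, rfl⟩ := h1
  have h2 : b = a * (d * d) := by
    apply mul_left_cancel₀ ha0
    rw [hc]
    ring
  have h3 : IsUnit d := hb d ⟨a, by rw [h2]; ring⟩
  rcases Int.isUnit_iff.1 h3 with rfl | rfl
  · rw [h2]; ring
  · rw [h2]; ring

theorem mm_ne_one (b : Finset ℕ) : MM b ≠ 1 := by
  unfold MM
  intro h
  have : 8 ∣ 1 := ⟨_, h.symm⟩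
  omega

theorem ne_zero_of_cop {b : Finset ℕ} {u : ℕ} (h : u.Coprime (MM b)) : u ≠ 0 := by
  rintro rfl
  rw [Nat.coprime_zero_left] at h
  exact mm_ne_one b h

theorem lam_one {r : ℕ} (g : Fin r → ℤ) : lam g 1 = 0 := by
  funext i
  unfold lam
  rw [jacobiSym.one_right, if_pos rfl]
  rfl

theorem t_RK : S_RK := by
  intro hGEN hLAB hLCG hGOOD hUNR b e1 e2 e3 r g hg hc
  obtain ⟨g1, g2, -, g4, g5⟩ := hGEN.2 b r g hg
  obtain ⟨-, -, -, -, -, -, l7⟩ := hLAB hGEN b r g hg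
  obtain ⟨hR, hP⟩ := hLCG e1 e2 e3 hc.h12 hc.h13 hc.h23
  have hbad : ∀ p : ℕ, p.Prime → ¬ p ∣ MM b →
      p ≠ 2 ∧ p ∉ b ∧ ¬ (p : ℤ) ∣ (e1 - e2) * (e1 - e3) * (e2 - e3) := by
    intro p hp hpM
    have h2 : p ≠ 2 := by
      rintro rfl
      apply hpM
      unfold MM
      exact Dvd.dvd.mul_right (by norm_num) _
    have hb : p ∉ b := by
      intro hpb
      apply hpM
      unfold MM
      exact Dvd.dvd.mul_left (Finset.dvd_prod_of_mem _ hpb) _
    exact ⟨h2, hb, fun hd => hb ((hc.mem p).2 ⟨hp, h2, hd⟩)⟩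
  have hmem : ∀ s : {s : Fin 2 → Gr r // InW b e1 e2 e3 g (s, 0)},
      ((rep g (s.1 0), rep g (s.1 1)) : ℤ × ℤ) ∈ SelG e1 e2 e3 := by
    intro s
    have h1 := s.2 (fun _ => 1) (fun c => ⟨Nat.coprime_one_left _, lam_one g⟩)
    have h2 : LS b e1 e2 e3 (rep g (s.1 0)) (rep g (s.1 1)) := by
      simpa using h1
    refine ⟨g1 _, g1 _, h2.1, fun p hp => ?_⟩
    by_cases hpM : p ∣ MM b
    · exact h2.2 p hpM
    · obtain ⟨h3, h4, h5⟩ := hbad p hp.out hpM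
      refine hGOOD hLCG e1 e2 e3 p h3 h5 _ _ (fun h6 => ?_) (fun h6 => ?_)
      · rcases g2 _ p hp.out h6 with h7 | h7
        · exact h3 h7
        · exact h4 h7
      · rcases g2 _ p hp.out h6 with h7 | h7
        · exact h3 h7
        · exact h4 h7
  rw [← Nat.card_coe_set_eq]
  refine Nat.card_congr (Equiv.ofBijective (fun s => (⟨_, hmem s⟩ : SelG e1 e2 e3)) ⟨?_, ?_⟩)
  · intro s t hst
    have h1 := congrArg Subtype.val hst
    simp only [Prod.mk.injEq] at h1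
    apply Subtype.ext
    funext i
    fin_cases i
    · exact g4 (s.1 0) (t.1 0) ⟨rep g (s.1 0), by rw [← h1.1]⟩
    · exact g4 (s.1 1) (t.1 1) ⟨rep g (s.1 1), by rw [← h1.2]⟩
  · rintro ⟨⟨m, n⟩, hm, hn, hlR, hlP⟩
    simp only at hm hn hlR hlP
    have hpr : ∀ p : ℕ, p.Prime → ((p : ℤ) ∣ m ∨ (p : ℤ) ∣ n) → p = 2 ∨ p ∈ b := by
      intro p hp hd
      by_contra hcon
      push Not at hcon
      have h5 : ¬ (p : ℤ) ∣ (e1 - e2) * (e1 - e3) * (e2 - e3) :=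
        fun h6 => hcon.2 ((hc.mem p).2 ⟨hp, hcon.1, h6⟩)
      haveI : Fact p.Prime := ⟨hp⟩
      obtain ⟨h7, h8⟩ := hUNR e1 e2 e3 p hcon.1 h5 m n hm hn (hlP p)
      rcases hd with hd | hd
      · exact h7 hd
      · exact h8 hd
    have hm0 : m ≠ 0 := hm.ne_zero
    have hn0 : n ≠ 0 := hn.ne_zero
    have hrm : rep g (ecl g m) = m :=
      (sqf_eq hm (g1 _) (g5 m hm0 fun p hp hd => hpr p hp (Or.inl hd))).symm
    have hrn : rep g (ecl g n) = n :=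
      (sqf_eq hn (g1 _) (g5 n hn0 fun p hp hd => hpr p hp (Or.inr hd))).symm
    refine ⟨⟨![ecl g m, ecl g n], ?_⟩, ?_⟩
    · intro u hu
      have hu0 : ∀ c, ((u c : ℕ) : ℤ) ≠ 0 := fun c => by
        exact_mod_cast ne_zero_of_cop (hu c).1
      have hsq : ∀ (K : Type) [Field K] (z : ℤ) (c : Fin 2), IsSquare (((u c : ℕ) : ℤ) : K) →
          IsSquare ((z * (z * ((u c : ℕ) : ℤ)) : ℤ) : K) := by
        intro K _ z c hz
        obtain ⟨w, hw⟩ := hz
        exact ⟨z * w, by push_cast at hw ⊢; rw [hw]; ring⟩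
      have hgoal : LS b e1 e2 e3 (m * (u 0 : ℕ)) (n * (u 1 : ℕ)) := by
        constructor
        · exact hR.cls m n _ _ hm0 hn0 (mul_ne_zero hm0 (hu0 0)) (mul_ne_zero hn0 (hu0 1))
            (hsq ℝ m 0 (l7 _ (hu 0).1 (hu 0).2).1) (hsq ℝ n 1 (l7 _ (hu 1).1 (hu 1).2).1) hlR
        · intro p hp hpM
          exact (hP p).cls m n _ _ hm0 hn0 (mul_ne_zero hm0 (hu0 0)) (mul_ne_zero hn0 (hu0 1))
            (hsq ℚ_[p] m 0 ((l7 _ (hu 0).1 (hu 0).2).2 p hpM))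
            (hsq ℚ_[p] n 1 ((l7 _ (hu 1).1 (hu 1).2).2 p hpM)) (hlP p)
      show LS b e1 e2 e3 (rep g (ecl g m) * (u 0 : ℕ)) (rep g (ecl g n) * (u 1 : ℕ))
      rw [hrm, hrn]
      exact hgoal
    · apply Subtype.ext
      show (rep g (ecl g m), rep g (ecl g n)) = (m, n)
      rw [hrm, hrn]

end Pool.Agent.N263.GK
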